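import Pool.Agent.H80.SH.Targets

/-!
# Strong ETH for shallow semantic dag-like refutations: (TUP)
-/

set_option autoImplicit false

namespace Pool.Agent.H86.SH

open Finset Pool.Agent.H80.SH

theorem piece {α : Type} [Fintype α] [DecidableEq α] {m T : ℕ} (i : Fin T → Fin m)
    (hi : Function.Injective i) (g : Fin T → α) :
    (univ.filter (fun F : Fin m → α => ∀ t, F (i t) = g t)).card * Fintype.card α ^ T ≤
      Fintype.card α ^ m := by
  classical
  have h1 : Fintype.card ({F : Fin m → α // ∀ t, F (i t) = g t} × (Fin T → α)) ≤
      Fintype.card (Fin m → α) := by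
    apply Fintype.card_le_of_injective
      (fun p => fun j => if h : ∃ t, i t = j then p.2 h.choose else p.1.1 j)
    rintro ⟨⟨F, hF⟩, h⟩ ⟨⟨F', hF'⟩, h'⟩ e
    have e2 : ∀ t, h t = h' t := by
      intro t
      have e1 := congrFun e (i t)
      have hex : ∃ t', i t' = i t := ⟨t, rfl⟩
      simp only [dif_pos hex] at e1
      have h2 : hex.choose = t := hi hex.choose_spec
      rw [h2] at e1
      exact e1
    have e3 : h = h' := funext e2
    have e4 : F = F' := by
      funext j
      by_cases hj : ∃ t, i t = j
      · obtain ⟨t, rfl⟩ := hj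
        rw [hF, hF']
      · have e1 := congrFun e j
        simp only [dif_neg hj] at e1
        exact e1
    subst e3 e4
    rfl
  rw [Fintype.card_prod, Fintype.card_subtype, Fintype.card_fun, Fintype.card_fun,
    Fintype.card_fin, Fintype.card_fin] at h1
  exact h1

theorem tup : T_TUP := by
  classical
  intro α _ _ m T G hG
  refine ⟨((univ.filter (fun i : Fin T → Fin m => Function.Injective i)) ×ˢ G).biUnion
    (fun p => univ.filter (fun F : Fin m → α => List.ofFn (fun t => F (p.1 t)) = p.2)), ?_, ?_⟩
  · have h1 : ∀ p ∈ ((univ.filter (fun i : Fin T → Fin m => Function.Injective i)) ×ˢ G),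
        (univ.filter (fun F : Fin m → α => List.ofFn (fun t => F (p.1 t)) = p.2)).card *
          Fintype.card α ^ T ≤ Fintype.card α ^ m := by
      rintro ⟨i, g⟩ hp
      rw [mem_product, mem_filter] at hp
      obtain ⟨⟨-, hi⟩, hg⟩ := hp
      have hlen := hG g hg
      subst hlen
      have h2 : (univ.filter (fun F : Fin m → α => List.ofFn (fun t => F (i t)) = g)) =
          (univ.filter (fun F : Fin m → α => ∀ t, F (i t) = g.get t)) := by
        apply filter_congr
        intro F _
        constructor
        · intro h t
          have h3 : List.ofFn (fun t => F (i t)) = List.ofFn g.get := by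
            rw [h, List.ofFn_get]
          exact congrFun (List.ofFn_injective h3) t
        · intro h
          rw [funext h, List.ofFn_get]
      change (univ.filter (fun F : Fin m → α => List.ofFn (fun t => F (i t)) = g)).card * _ ≤ _
      rw [h2]
      exact piece i hi g.get
    calc _ ≤ (∑ p ∈ ((univ.filter (fun i : Fin T → Fin m => Function.Injective i)) ×ˢ G),
          (univ.filter (fun F : Fin m → α => List.ofFn (fun t => F (p.1 t)) = p.2)).card) *
          Fintype.card α ^ T := Nat.mul_le_mul_right _ card_biUnion_le
      _ = ∑ p ∈ ((univ.filter (fun i : Fin T → Fin m => Function.Injective i)) ×ˢ G),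
          (univ.filter (fun F : Fin m → α => List.ofFn (fun t => F (p.1 t)) = p.2)).card *
          Fintype.card α ^ T := by rw [sum_mul]
      _ ≤ ∑ _p ∈ ((univ.filter (fun i : Fin T → Fin m => Function.Injective i)) ×ˢ G),
          Fintype.card α ^ m := sum_le_sum h1
      _ = ((univ.filter (fun i : Fin T → Fin m => Function.Injective i)).card * G.card) *
          Fintype.card α ^ m := by rw [sum_const, card_product, smul_eq_mul]
      _ ≤ m ^ T * G.card * Fintype.card α ^ m := by
          apply Nat.mul_le_mul_right
          apply Nat.mul_le_mul_right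
          refine (card_le_univ _).trans ?_
          rw [Fintype.card_fun, Fintype.card_fin, Fintype.card_fin]
  · rintro F ⟨l, hl, hlG⟩
    have hlen := hG _ hlG
    rw [List.length_map] at hlen
    subst hlen
    rw [mem_biUnion]
    refine ⟨(l.get, l.map F), ?_, ?_⟩
    · rw [mem_product, mem_filter]
      exact ⟨⟨mem_univ _, List.nodup_iff_injective_get.1 hl⟩, hlG⟩
    · rw [mem_filter]
      refine ⟨mem_univ _, ?_⟩
      change List.ofFn (fun t => F (l.get t)) = l.map F
      conv_rhs => rw [← List.ofFn_get l, List.map_ofFn]
      rfl

end Pool.Agent.H86.SH
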